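import Pool.Agent.Lib.MP_11d5c7_lc.B

namespace Pool.Agent.Results.MP_11d5c7_lc.OverlapZFC

/-- There is a compact (so Borel) set `B` in Cantor space with uncountably many translates that
overlap pairwise in uncountable sets, while every nonempty perfect set holds two points whose
translates share only countably many points, in fact at most four. -/
theorem result : ∃ B : Set (ℕ → ZMod 2), IsCompact B ∧
    @MeasurableSet _ (borel (ℕ → ZMod 2)) B ∧
    (∃ H : Set (ℕ → ZMod 2), ¬ H.Countable ∧ ∀ x ∈ H, ∀ y ∈ H,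
      ¬ (((fun b => b + x) '' B) ∩ ((fun b => b + y) '' B)).Countable) ∧
    ∀ P : Set (ℕ → ZMod 2), Perfect P → P.Nonempty → ∃ x ∈ P, ∃ y ∈ P,
      (((fun b => b + x) '' B) ∩ ((fun b => b + y) '' B)).Countable ∧
      (((fun b => b + x) '' B) ∩ ((fun b => b + y) '' B)).encard ≤ 4 :=
  Pool.Agent.Lib.MP_11d5c7_lc.main

end Pool.Agent.Results.MP_11d5c7_lc.OverlapZFC
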